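import Pool.Agent.Helper90.VS.Final
import Pool.Agent.Helper90.VS.Rotc

/-!
# MP_539ca6_an, Q1: there exist V-states with a 90 degree corner

Definitions used in the statement (all in `Pool/Agent/Helper90/VS/Defs.lean` and `Defs2.lean`):

* `pot D x = (1/2π) ∫_{y ∈ D} log ‖x - y‖`, the stream function `ψ_D`;
* `IsVState D Ω`: `D` is open and bounded and `ψ_D(x) - Ω‖x‖²/2` is constant on each connected
  component of `∂D`;
* `IsC1Arc γ γ' p`: `γ : [0,1] → ℂ` is an injective `C¹` arc with nowhere vanishing derivative
  `γ'` and `γ 0 = p`;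
* `IsRightCorner D p`: near `p` the boundary of `D` is the union of two `C¹` arcs starting at `p`
  (with no other common point) whose tangent vectors at `p` are perpendicular; `D` contains the
  beginning of every ray from `p` into the open quadrant between the two tangents, and `closure D`
  misses the beginning of every ray from `p` outside the closed quadrant.
-/

open MeasureTheory Set Filter Topology

namespace Pool.Agent.Results.MP_539ca6_an.CornerVState

open Pool.Agent.Helper90.VS

/-- For every sufficiently large `m` there is an `m`-fold symmetric V-state `D` (a bounded, regular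
open set which is star-shaped with respect to `0`) such that every `m`-th root of unity is a
90 degree corner of `∂D`. -/
theorem result : ∃ m₀ : ℕ, ∀ m ≥ m₀, ∃ (D : Set ℂ) (Ω : ℝ),
    IsVState D Ω ∧ interior (closure D) = D ∧ 0 ∈ D ∧ StarConvex ℝ 0 D ∧
      ∀ ζ : ℂ, ζ ^ m = 1 →
        (∀ x, ζ * x ∈ D ↔ x ∈ D) ∧ ζ ∈ frontier D ∧ IsRightCorner D ζ := by
  obtain ⟨m₀, hm₀⟩ := main_exists
  refine ⟨m₀, fun m hm => ?_⟩
  obtain ⟨a, hF, h1, h2, h3, h4, h5, h6⟩ := hm₀ m hm
  have hm1 : 1 ≤ m := by have := hF.hm; omega
  refine ⟨DD m a, Om m a, h1, h2, h3, h4, fun ζ hζ => ?_⟩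
  have hn := norm_root hm1 hζ
  have h0 : ζ ≠ 0 := by intro h0; rw [h0, norm_zero] at hn; norm_num at hn
  have hrot := fun x => DD_rot hm1 a hζ x
  refine ⟨hrot, ?_, ?_⟩
  · have := (frontier_rot h0 hrot 1).mpr h5
    rwa [mul_one] at this
  · have := corner_rot hn hrot h6
    rwa [mul_one] at this

end Pool.Agent.Results.MP_539ca6_an.CornerVState
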